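import Pool.Agent.H80.R5

/-!
# The derived series of the group generated by a good pair

Problem MP_77f37b_al (Q1).  `Good p d n a b` says that `(a,b)` is a `(p,d)`-good pair of
permutations of `n` points; `M p 0 = 1` and `M p (i+1) = p^(2 * M p i) * M p i`.
-/

namespace Pool.Agent.Results.MP_77f37b_al.DerivedSeries

open Pool.Agent.H80.R1 Pool.Agent.H80.R3 Pool.Agent.H80.R5

/-- `H` is soluble and has a normal Sylow `p`-subgroup. -/
def SolubleClosed (p : ℕ) (H : Type) [Group H] : Prop :=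
  Group.IsSolvable H ∧ ∃ P : Sylow p H, (P : Subgroup H).Normal

/-- **Result.** Let `p` be a prime and let `(a,b)` be a `(p,d)`-good pair of degree `n > 1` with
`p ∤ n`.  If `m = M p s` satisfies `m * binom(m² + p - 2, p - 1) ≤ d`, then the `s`-th derived
subgroup of `⟨a,b⟩` is not a soluble group with a normal Sylow `p`-subgroup.  In particular, if
`p ≥ 11` and `d = ⌊exp(exp p)⌋`, then this holds for the second derived subgroup, so that it is
not nilpotent, and `⟨a,b⟩` is not soluble of derived length at most `3`. -/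
theorem result (p d n : ℕ) (hp : p.Prime) (hpn : ¬ p ∣ n) (hn : 1 < n)
    (a b : Equiv.Perm (Fin n)) (h : Good p d n a b) :
    (∀ s : ℕ, M p s * ((M p s) ^ 2 + p - 2).choose (p - 1) ≤ d →
      ¬ SolubleClosed p
        (derivedSeries (Subgroup.closure ({a, b} : Set (Equiv.Perm (Fin n)))) s)) ∧
    (11 ≤ p → d = ⌊Real.exp (Real.exp p)⌋₊ →
      ¬ SolubleClosed p
        (derivedSeries (Subgroup.closure ({a, b} : Set (Equiv.Perm (Fin n)))) 2) ∧
      ¬ Group.IsNilpotent
        (derivedSeries (Subgroup.closure ({a, b} : Set (Equiv.Perm (Fin n)))) 2) ∧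
      derivedSeries (Subgroup.closure ({a, b} : Set (Equiv.Perm (Fin n)))) 3 ≠ ⊥) := by
  have : Fact p.Prime := ⟨hp⟩
  have h1 : ∀ s : ℕ, M p s * ((M p s) ^ 2 + p - 2).choose (p - 1) ≤ d →
      ¬ SolubleClosed p
        (derivedSeries (Subgroup.closure ({a, b} : Set (Equiv.Perm (Fin n)))) s) := by
    rintro s hs ⟨hsol, P, hP⟩
    exact not_closed hp hpn hn a b h hs hsol P hP
  refine ⟨h1, fun hp11 hd => ?_⟩
  subst hd
  have h2 := h1 2 (bd_M2 hp11)
  refine ⟨h2, fun hnil => h2 ⟨inferInstance, ?_⟩, not_soluble (s := 2) hp hpn hn a b h (bd_M2 hp11)⟩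
  obtain ⟨P⟩ : Nonempty (Sylow p
    (derivedSeries (Subgroup.closure ({a, b} : Set (Equiv.Perm (Fin n)))) 2)) := inferInstance
  exact ⟨P, (Group.isNilpotent_of_finite_tfae.out 0 3 rfl rfl |>.mp hnil) p ‹_› P⟩

end Pool.Agent.Results.MP_77f37b_al.DerivedSeries
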