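import Pool.Agent.H80.R4

/-!
# Good pairs have no faithful representations of small degree

Problem MP_77f37b_al (Q1).  `Good p d n a b` says that `(a,b)` is a `(p,d)`-good pair of
permutations of `n` points.
-/

namespace Pool.Agent.Results.MP_77f37b_al.LinearDegree

open Pool.Agent.H80.R1

universe v

/-- **Result.** Let `p` be a prime and let `(a,b)` be a `(p,d)`-good pair of degree `n > 1` with
`p ∤ n`.  If `⟨a,b⟩` embeds in `GL_r(R)`, `R` a reduced commutative ring, then
`d < r * binom(r² + p - 2, p - 1)`; and if moreover `d = ⌊exp(exp p)⌋`, then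
`r > exp(exp p / (2p - 1))`. -/
theorem result (p d n r : ℕ) (hp : p.Prime) (hpn : ¬ p ∣ n) (hn : 1 < n)
    (a b : Equiv.Perm (Fin n)) (h : Good p d n a b) (R : Type v) [CommRing R] [IsReduced R]
    (ρ : Subgroup.closure ({a, b} : Set (Equiv.Perm (Fin n))) →*
      Matrix.GeneralLinearGroup (Fin r) R) (hρ : Function.Injective ρ) :
    d < r * (r ^ 2 + p - 2).choose (p - 1) ∧
      (d = ⌊Real.exp (Real.exp p)⌋₊ → Real.exp (Real.exp p / (2 * p - 1)) < r) := by
  have h1 := linearDegree hp hpn hn a b h R ρ hρ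
  refine ⟨h1, fun hd => ?_⟩
  by_contra hcon
  push Not at hcon
  have h2 := floor_le hp.pos hcon
  rw [hd] at h1
  exact absurd h1 (not_lt.2 h2)

end Pool.Agent.Results.MP_77f37b_al.LinearDegree
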