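import Pool.Agent.H80.R4

/-!
# Subgroups of small index in groups generated by good pairs, and the degree of a good pair

Problem MP_77f37b_al (Q1).  `Good p d n a b` says that `(a,b)` is a `(p,d)`-good pair of
permutations of `n` points.
-/

namespace Pool.Agent.Results.MP_77f37b_al.SmallIndex

open Pool.Agent.H80.R1 Pool.Agent.H80.R4

/-- **Result.** Let `p` be a prime, `(a,b)` a `(p,d)`-good pair of degree `n` and `G = ⟨a,b⟩`.
Every subgroup `H` of `G` whose index `m` satisfies `m * binom(m² + p - 2, p - 1) ≤ d` has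
`p`-power index, and its derived subgroup contains all `p`-th powers of elements of `G`; hence if
`p ∤ n` and `n > 1` then `n * binom(n² + p - 2, p - 1) > d`.  For `d = ⌊exp(exp p)⌋` the condition
on `m` holds for all `m ≤ exp(exp p / (2p - 1))`. -/
theorem result (p d n : ℕ) (hp : p.Prime) (a b : Equiv.Perm (Fin n)) (h : Good p d n a b) :
    (∀ H : Subgroup (Subgroup.closure ({a, b} : Set (Equiv.Perm (Fin n)))),
      H.index * (H.index ^ 2 + p - 2).choose (p - 1) ≤ d →
        (∃ k, H.index = p ^ k) ∧ ∀ g, g ^ p ∈ ⁅H, H⁆) ∧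
    (¬ p ∣ n → 1 < n → d < n * (n ^ 2 + p - 2).choose (p - 1)) ∧
    (∀ m : ℕ, (m : ℝ) ≤ Real.exp (Real.exp p / (2 * p - 1)) →
      m * (m ^ 2 + p - 2).choose (p - 1) ≤ ⌊Real.exp (Real.exp p)⌋₊) :=
  ⟨fun H hd => small_index hp a b h.2 H hd, fun hpn hn => degree hp hpn hn a b h,
    fun _ hm => floor_le hp.pos hm⟩

end Pool.Agent.Results.MP_77f37b_al.SmallIndex
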